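import Pool.Agent.helper69.AD.GS6
import Pool.Agent.helper46.AG.PT1

/-!
Module XC4 (MP_a29257_gt, existence part): the lengths of the leaves of a filling pair bound all
lengths.
-/

open scoped MatrixGroups LinearAlgebra.Projectivization
open Matrix UpperHalfPlane
open Pool.Agent.helper73.AD (PS Arc Word sg AData Family PreFamily Cone bs)

namespace AdSBend

noncomputable section

open LeafSystem

/-- the trace is bounded by the displacement of any point -/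
theorem XC4_trc (g : SL(2, ℝ)) (z : ℍ) :
    trc g ^ 2 ≤ 2 + 2 * Real.cosh (dist z (g • z)) := by
  obtain ⟨hre, him⟩ := PT1_re_im g z
  have hD := PT1_D_pos g z
  have hdet := PT1_det g
  have hv := z.im_pos
  rw [UpperHalfPlane.cosh_dist', hre, him]
  set u := z.re with hu
  set v := z.im with hv'
  set a := g.1 0 0 with ha
  set b := g.1 0 1 with hb
  set c := g.1 1 0 with hc
  set d := g.1 1 1 with hd
  have hDd : PT1_D g z = (c * u + d) ^ 2 + (c * v) ^ 2 := rfl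
  have ht : trc g = a + d := rfl
  set D := PT1_D g z with hDD
  have key : 2 * (((u - ((a * u + b) * (c * u + d) + a * c * v ^ 2) / D) ^ 2 + v ^ 2 + (v / D) ^ 2)
      / (2 * v * (v / D)))
      = ((D * u - ((a * u + b) * (c * u + d) + a * c * v ^ 2)) ^ 2 + (v * D) ^ 2 + v ^ 2)
        / (v ^ 2 * D) := by
    field_simp
  have key2 : ((D * u - ((a * u + b) * (c * u + d) + a * c * v ^ 2)) ^ 2 + (v * D) ^ 2 + v ^ 2)
      = D * ((c * (u ^ 2 - v ^ 2) + (d - a) * u - b) ^ 2 + (v * (2 * c * u + d - a)) ^ 2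
        + 2 * v ^ 2) := by
    rw [hDd]
    have e : a * d - b * c = 1 := hdet
    linear_combination (2 * v ^ 2 * ((c * u + d) ^ 2 + (c * v) ^ 2)
      - v ^ 2 * (a * d - b * c + 1)) * e
  rw [ht, key, key2]
  have e3 : D * ((c * (u ^ 2 - v ^ 2) + (d - a) * u - b) ^ 2 + (v * (2 * c * u + d - a)) ^ 2
        + 2 * v ^ 2) / (v ^ 2 * D)
      = ((c * (u ^ 2 - v ^ 2) + (d - a) * u - b) ^ 2 / v ^ 2 + (2 * c * u + d - a) ^ 2 + 2) := by
    field_simp
  rw [e3]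
  have e4 : (a + d) ^ 2 = 4 + (2 * c * u + d - a) ^ 2
      - 4 * c * (c * (u ^ 2 - v ^ 2) + (d - a) * u - b) - 4 * c ^ 2 * v ^ 2 := by
    have e : a * d - b * c = 1 := hdet
    linear_combination 4 * e
  rw [e4]
  set X := c * (u ^ 2 - v ^ 2) + (d - a) * u - b with hX
  have e5 : 0 ≤ (2 * c * v + X / v) ^ 2 := sq_nonneg _
  have e6 : (2 * c * v + X / v) ^ 2 = 4 * c ^ 2 * v ^ 2 + 4 * c * X + X ^ 2 / v ^ 2 := by
    field_simp
    ring
  rw [e6] at e5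
  linarith

/-- linked geodesics have a common point -/
theorem XC4_cross (h1 : PT1_stmt) (h5 : PT5_stmt) (h6 : BD6_stmt) (h7 : BD7_stmt)
    (hax : BD4_stmt) (p q : Bd × Bd) (h : Linked p.1 p.2 q.1 q.2) :
    ∃ x : ℍ, side x p.1 p.2 = 0 ∧ side x q.1 q.2 = 0 := by
  have main : ∀ q1 q2 : Bd, Cyc p.1 q1 p.2 → Cyc p.1 p.2 q2 →
      ∃ x : ℍ, side x p.1 p.2 = 0 ∧ side x q1 q2 = 0 := by
    intro q1 q2 hq1 hq2
    have hne : p.1 ≠ p.2 := fun e => (hax.1 _ _ _ hq2).1 e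
    obtain ⟨F, hF⟩ := h6.1 p hne
    obtain ⟨s, hs, e1⟩ := (h7.1 F p q1 hF).1.mp hq1
    obtain ⟨t, ht, e2⟩ := (h7.1 F p q2 hF).2.mp (hax.2.1 _ _ _ hq2)
    have hst : 0 < -(s * t) := by
      have := mul_neg_of_neg_of_pos hs ht
      linarith
    have hpos : 0 < Real.sqrt (-(s * t)) := Real.sqrt_pos.mpr hst
    let w : ℍ := ⟨⟨0, Real.sqrt (-(s * t))⟩, hpos⟩
    have hwre : w.re = 0 := rfl
    have hwim : w.im = Real.sqrt (-(s * t)) := rfl
    refine ⟨F • w, ?_, ?_⟩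
    · obtain ⟨a1, a2⟩ := h5.1 F p w hF
      apply le_antisymm
      · by_contra hc
        rw [not_le] at hc
        have := a2.mp hc
        rw [hwre] at this
        exact lt_irrefl _ this
      · by_contra hc
        rw [not_le] at hc
        have := a1.mp hc
        rw [hwre] at this
        exact lt_irrefl _ this
    · rw [e1, e2]
      rw [(h1 F w (bPt s) (bPt t)).2.2.1]
      obtain ⟨a, ha⟩ := Projectivization.exists_smul_eq_mk_rep ℝ (![s, 1] : Fin 2 → ℝ)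
        (by intro h; simpa using congrFun h 1)
      obtain ⟨b, hb⟩ := Projectivization.exists_smul_eq_mk_rep ℝ (![t, 1] : Fin 2 → ℝ)
        (by intro h; simpa using congrFun h 1)
      have ha' : (bPt s).rep = (a : ℝ) • ![s, 1] := ha.symm
      have hb' : (bPt t).rep = (b : ℝ) • ![t, 1] := hb.symm
      unfold side
      rw [ha', hb', hwre, hwim, Real.sq_sqrt hst.le]
      simp only [Pi.smul_apply, smul_eq_mul, Matrix.cons_val_zero, Matrix.cons_val_one]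
      ring
  rcases h with ⟨ha, hb⟩ | ⟨ha, hb⟩
  · exact main q.1 q.2 ha hb
  · obtain ⟨x, hx1, hx2⟩ := main q.2 q.1 ha hb
    refine ⟨x, hx1, ?_⟩
    rw [(h1 1 x q.2 q.1).2.2.2, hx2, neg_zero]

/-- leaves of the pair are closed geodesics -/
theorem XC4_closed {Γ : Subgroup SL(2, ℝ)} {lm lp : WeightedMulticurve Γ} {p : Bd × Bd}
    (h : IsLf lm lp p) : IsClosedGeodesic Γ p.1 p.2 := by
  rcases h with h | h
  · exact lm.closed _ _ h
  · exact lp.closed _ _ h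

/-- translates of leaves are leaves -/
theorem XC4_ga {Γ : Subgroup SL(2, ℝ)} {lm lp : WeightedMulticurve Γ} {p : Bd × Bd}
    (h : IsLf lm lp p) {γ : SL(2, ℝ)} (hγ : γ ∈ Γ) : IsLf lm lp (ga γ p) := by
  rcases h with h | h
  · exact Or.inl (by rw [lm.invariant γ hγ]; exact h)
  · exact Or.inr (by rw [lp.invariant γ hγ]; exact h)

/-- leaves are simple -/
theorem XC4_simple {Γ : Subgroup SL(2, ℝ)} {lm lp : WeightedMulticurve Γ} {p : Bd × Bd}
    (h : IsLf lm lp p) : IsSimpleClosedGeodesic Γ p.1 p.2 := by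
  refine ⟨XC4_closed h, fun γ hγ => ?_⟩
  rcases h with h | h
  · exact lm.disjoint _ _ _ _ h (by rw [lm.invariant γ hγ]; exact h)
  · exact lp.disjoint _ _ _ _ h (by rw [lp.invariant γ hγ]; exact h)

/-- the empty leaf system -/
def XC4_empty (Γ : Subgroup SL(2, ℝ)) : LeafSystem Γ where
  L := ∅
  swap := fun p hp => absurd hp (Set.notMem_empty p)
  inv := fun _ _ p hp => absurd hp (Set.notMem_empty p)
  closed := fun p hp => absurd hp (Set.notMem_empty p)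
  unlinked := fun p hp => absurd hp (Set.notMem_empty p)
  finite := ⟨∅, fun p hp => absurd hp (Set.notMem_empty p)⟩

/-- there is a leaf and a leaf crossing it -/
theorem XC4_leaf (hCLM : CLM_stmt) {Γ : Subgroup SL(2, ℝ)} (hΓ : IsClosedSurfaceGroup Γ)
    {lm lp : WeightedMulticurve Γ} (hF : Fill lm lp) :
    ∃ p c, IsLf lm lp p ∧ IsLf lm lp c ∧ Linked p.1 p.2 c.1 c.2 := by
  obtain ⟨S, -, -, p, hp⟩ := hCLM Γ hΓ (XC4_empty Γ)
  have hs : IsSimpleClosedGeodesic Γ p.1 p.2 :=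
    ⟨S.closed p hp, fun γ hγ => S.unlinked p hp _ (S.inv γ hγ p hp)⟩
  obtain ⟨x, y, hxy, -⟩ := hF _ _ hs
  have hl : IsLf lm lp (x, y) := hxy
  obtain ⟨x', y', hxy', hk⟩ := hF _ _ (XC4_simple hl)
  exact ⟨(x, y), (x', y'), hl, hxy', hk⟩

/-- distances of crossing points along a chain of leaves -/
theorem XC4_chain (h1 : PT1_stmt) (h5 : PT5_stmt) (h6 : BD6_stmt) (h7 : BD7_stmt)
    (hax : BD4_stmt) (h11 : BD11_stmt) (h12 : BD12_stmt) (hXC3 : XC3_stmt)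
    {Γ : Subgroup SL(2, ℝ)} (hΓ : IsClosedSurfaceGroup Γ)
    {lm lp : WeightedMulticurve Γ} (M : ℝ) (p p' : Bd × Bd) (hp : IsLf lm lp p)
    (hch : Relation.ReflTransGen
      (fun q q' => IsLf lm lp q ∧ IsLf lm lp q' ∧ Linked q.1 q.2 q'.1 q'.2) p p') :
    ∀ c c' : Bd × Bd, Linked p.1 p.2 c.1 c.2 → Linked p'.1 p'.2 c'.1 c'.2 →
      ∃ C : ℝ, ∀ (f : Bd ≃ Bd) (r : SL(2, ℝ) → SL(2, ℝ)), IsConjBy Γ f r →
        (∀ p, IsLf lm lp p → len (r (gen Γ p)) ≤ M) → ∀ x x' : ℍ,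
        side x (f p.1) (f p.2) = 0 → side x (f c.1) (f c.2) = 0 →
        side x' (f p'.1) (f p'.2) = 0 → side x' (f c'.1) (f c'.2) = 0 → dist x x' ≤ C := by
  induction hch with
  | refl =>
    intro c c' hc hc'
    obtain ⟨N, hN⟩ := hXC3 Γ hΓ p c c' (XC4_closed hp) hc hc'
    refine ⟨N * M, fun f r hfr hM x x' e1 e2 e3 e4 => ?_⟩
    exact (hN f r hfr x x' e1 e2 e3 e4).trans
      (mul_le_mul_of_nonneg_left (hM p hp) (Nat.cast_nonneg N))
  | tail hab hbc ih =>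
    rename_i b b'
    intro c c' hc hc'
    obtain ⟨hb, hb', hk⟩ := hbc
    have hk' : Linked b'.1 b'.2 b.1 b.2 := (h12.2.2.2.2.2.2.2.2.2.1 _ _ _ _).mp hk
    obtain ⟨C, hC⟩ := ih c b' hc hk
    obtain ⟨N, hN⟩ := hXC3 Γ hΓ b' b c' (XC4_closed hb') hk' hc'
    refine ⟨C + N * M, fun f r hfr hM x x' e1 e2 e3 e4 => ?_⟩
    have hkf : Linked (f b.1) (f b.2) (f b'.1) (f b'.2) :=
      ((h11 Γ f r hfr).2.1 _ _ _ _).mpr hk
    obtain ⟨y, hy1, hy2⟩ := XC4_cross h1 h5 h6 h7 hax (f b.1, f b.2) (f b'.1, f b'.2) hkf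
    have d1 := hC f r hfr hM x y e1 e2 hy1 hy2
    have d2 := hN f r hfr y x' hy2 hy1 e3 e4
    have d3 : (N : ℝ) * len (r (gen Γ b')) ≤ N * M :=
      mul_le_mul_of_nonneg_left (hM b' hb') (Nat.cast_nonneg N)
    have d4 := dist_triangle x y x'
    linarith

theorem XC4 (h2 : BD2_stmt) (hax : BD4_stmt) (h6 : BD6_stmt) (h7 : BD7_stmt) (h11 : BD11_stmt)
    (h12 : BD12_stmt) (h1 : PT1_stmt) (h5 : PT5_stmt) (hCLM : CLM_stmt) (hXC2 : XC2_stmt)
    (hXC3 : XC3_stmt) : XC4_stmt := by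
  intro Γ hΓ lm lp hF γ hγ M
  obtain ⟨p, c, hp, hc, hk⟩ := XC4_leaf hCLM hΓ hF
  have hch := hXC2 Γ hΓ lm lp hF p (ga γ p) hp (XC4_ga hp hγ)
  have hk' : Linked (ga γ p).1 (ga γ p).2 (ga γ c).1 (ga γ c).2 := by
    have e : ∀ x y z : Bd, Cyc (γ • x) (γ • y) (γ • z) ↔ Cyc x y z := fun x y z => h2 γ x y z
    unfold Linked at hk ⊢
    simp only [e]
    exact hk
  obtain ⟨C, hC⟩ := XC4_chain h1 h5 h6 h7 hax h11 h12 hXC3 hΓ M p (ga γ p) hp hch c (ga γ c)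
    hk hk'
  refine ⟨Real.sqrt (2 + 2 * Real.cosh C), fun f r hfr hM => ?_⟩
  have hkf : Linked (f p.1) (f p.2) (f c.1) (f c.2) := ((h11 Γ f r hfr).2.1 _ _ _ _).mpr hk
  obtain ⟨x, hx1, hx2⟩ := XC4_cross h1 h5 h6 h7 hax (f p.1, f p.2) (f c.1, f c.2) hkf
  have hx3 : side (r γ • x) (f (ga γ p).1) (f (ga γ p).2) = 0 := by
    change side (r γ • x) (f (γ • _)) (f (γ • _)) = 0
    rw [hfr.2 γ hγ, hfr.2 γ hγ]
    exact (h1 (r γ) x _ _).2.2.1.mpr hx1
  have hx4 : side (r γ • x) (f (ga γ c).1) (f (ga γ c).2) = 0 := by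
    change side (r γ • x) (f (γ • _)) (f (γ • _)) = 0
    rw [hfr.2 γ hγ, hfr.2 γ hγ]
    exact (h1 (r γ) x _ _).2.2.1.mpr hx2
  have hd := hC f r hfr hM x (r γ • x) hx1 hx2 hx3 hx4
  have hcosh : Real.cosh (dist x (r γ • x)) ≤ Real.cosh C := by
    rw [Real.cosh_le_cosh, abs_of_nonneg dist_nonneg]
    exact hd.trans (le_abs_self C)
  apply Real.abs_le_sqrt
  have := XC4_trc (r γ) x
  linarith

end

end AdSBend
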