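import Pool.Agent.helper69.AD.GS6

/-!
Module XC5 (MP_a29257_gt, existence part): a bound of the weighted length sum bounds the
length coordinates.
-/

open scoped MatrixGroups LinearAlgebra.Projectivization
open Matrix UpperHalfPlane
open Pool.Agent.helper73.AD (PS Arc Word sg AData Family PreFamily Cone bs)

namespace AdSBend

noncomputable section

open LeafSystem

/-- the length is bounded by twice the trace -/
theorem XC5_len (g : SL(2, ℝ)) (C : ℝ) (h : |trc g| ≤ C) (h2 : 2 < |trc g|) : len g ≤ 2 * C := by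
  unfold len
  have h0 : 0 < |trc g| := by linarith
  have h1 : Real.sqrt (|trc g| ^ 2 - 4) ≤ |trc g| := by
    rw [Real.sqrt_le_left h0.le]
    linarith
  have h3 : 0 ≤ Real.sqrt (|trc g| ^ 2 - 4) := Real.sqrt_nonneg _
  have h4 : Real.log ((|trc g| + Real.sqrt (|trc g| ^ 2 - 4)) / 2)
      ≤ (|trc g| + Real.sqrt (|trc g| ^ 2 - 4)) / 2 - 1 := Real.log_le_sub_one_of_pos (by linarith)
  linarith

/-- `qlin` -/
theorem XC5_qlin {J : Type} [Fintype J] (a : J → ℝ) (z : PS J) :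
    qlin a z = ∑ j, a j * z.1 j := by
  simp [qlin]

/-- weights are constant on classes -/
theorem XC5_w {Γ : Subgroup SL(2, ℝ)} (l : WeightedMulticurve Γ) {p q : Bd × Bd}
    (h : ∃ γ ∈ Γ, q = ga γ p ∨ q = ga γ (sw p)) : l.w q.1 q.2 = l.w p.1 p.2 := by
  obtain ⟨γ, hγ, rfl | rfl⟩ := h
  · exact l.invariant γ hγ _ _
  · exact (l.invariant γ hγ _ _).trans (l.symm _ _)

theorem XC5 (hGM1 : GM1_stmt) (hTF2 : TF2_stmt) (hFB1 : FB1_stmt) (hFB4 : FB4_stmt)
    (hFC7 : FC7_stmt) (hXC4 : XC4_stmt) : XC5_stmt := by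
  intro Γ hΓ lm lp hF J K _ _ _ _ X hm hp R
  set a : J → ℝ := fun j => 2 * lm.w (X.D.P j).1 (X.D.P j).2 with ha
  set b : K → ℝ := fun k => 2 * lp.w (X.D'.P k).1 (X.D'.P k).2 with hb
  have ha0 : ∀ j, 0 ≤ a j := fun j => mul_nonneg (by norm_num) (lm.nonneg _ _)
  have hb0 : ∀ k, 0 ≤ b k := fun k => mul_nonneg (by norm_num) (lp.nonneg _ _)
  set M : ℝ := ∑ j, |R| / a j + ∑ k, |R| / b k with hM
  have hMa : ∀ j, |R| / a j ≤ M := by
    intro j
    have h1 : |R| / a j ≤ ∑ j, |R| / a j :=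
      Finset.single_le_sum (f := fun j => |R| / a j)
        (fun i _ => div_nonneg (abs_nonneg R) (ha0 i)) (Finset.mem_univ j)
    have h2 : 0 ≤ ∑ k, |R| / b k :=
      Finset.sum_nonneg (fun k _ => div_nonneg (abs_nonneg R) (hb0 k))
    linarith
  have hMb : ∀ k, |R| / b k ≤ M := by
    intro k
    have h1 : |R| / b k ≤ ∑ k, |R| / b k :=
      Finset.single_le_sum (f := fun k => |R| / b k)
        (fun i _ => div_nonneg (abs_nonneg R) (hb0 i)) (Finset.mem_univ k)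
    have h2 : 0 ≤ ∑ j, |R| / a j :=
      Finset.sum_nonneg (fun j _ => div_nonneg (abs_nonneg R) (ha0 j))
    linarith
  have hgen : ∀ j, gen Γ (X.D.P j) ∈ Γ := fun j =>
    (hGM1 Γ hΓ (X.D.P j) (X.S.closed _ (X.D.memP j))).1
  choose C hC using fun j : J => hXC4 Γ hΓ lm lp hF (gen Γ (X.D.P j)) (hgen j) M
  refine ⟨∑ j, 2 * |C j|, fun f r z hfr hz hsum j => ?_⟩
  have hA : X.S.AdmS r := hTF2 Γ hΓ X.S f r hfr
  have hA' : X.S'.AdmS r := hTF2 Γ hΓ X.S' f r hfr
  obtain ⟨hcone, hlen⟩ := (hFB4 Γ hΓ X.S J X.D r hA).2.2.1 z hz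
  have hq : ∀ j, 0 < z.1 j := hcone
  have hH : ∀ k, (X.w k).H z = len (r (gen Γ (X.D'.P k))) := fun k =>
    (hFC7 Γ hΓ X.S J X.D (X.D'.P k) (X.w k) (X.W k) r z (X.S'.closed _ (X.D'.memP k)) hA hz).2.2.1
  have hlen' : ∀ p ∈ X.S'.L, 0 < len (r (gen Γ p)) ∧ len (r (gen Γ (sw p))) = len (r (gen Γ p)) ∧
      ∀ γ ∈ Γ, len (r (gen Γ (ga γ p))) = len (r (gen Γ p)) :=
    (hFB1 Γ hΓ X.S' r hA').2.2.2.2
  have hHpos : ∀ k, 0 < (X.w k).H z := by
    intro k
    rw [hH k]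
    exact (hlen' _ (X.D'.memP k)).1
  rw [XC5_qlin] at hsum
  have hs1 : 0 ≤ ∑ k, b k * (X.w k).H z :=
    Finset.sum_nonneg (fun k _ => mul_nonneg (hb0 k) (hHpos k).le)
  have hs2 : 0 ≤ ∑ j, a j * z.1 j :=
    Finset.sum_nonneg (fun j _ => mul_nonneg (ha0 j) (hq j).le)
  have hsum' : ∑ k, b k * (X.w k).H z + ∑ j, a j * z.1 j ≤ R := hsum
  have hRle := le_abs_self R
  have hta : ∀ j, a j * z.1 j ≤ |R| := by
    intro j
    have : a j * z.1 j ≤ ∑ j, a j * z.1 j :=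
      Finset.single_le_sum (f := fun j => a j * z.1 j)
        (fun i _ => mul_nonneg (ha0 i) (hq i).le) (Finset.mem_univ j)
    linarith
  have htb : ∀ k, b k * (X.w k).H z ≤ |R| := by
    intro k
    have : b k * (X.w k).H z ≤ ∑ k, b k * (X.w k).H z :=
      Finset.single_le_sum (f := fun k => b k * (X.w k).H z)
        (fun i _ => mul_nonneg (hb0 i) (hHpos i).le) (Finset.mem_univ k)
    linarith
  have hleaf : ∀ p, IsLf lm lp p → len (r (gen Γ p)) ≤ M := by
    rintro p (h | h)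
    · have hpL : p ∈ X.S.L := hm _ _ h
      have hcl : X.D.cls p = X.D.cls (X.D.P (X.D.cls p)) := (X.D.clsP _).symm
      have hw : lm.w (X.D.P (X.D.cls p)).1 (X.D.P (X.D.cls p)).2 = lm.w p.1 p.2 :=
        XC5_w lm (X.D.cls_inj p hpL _ (X.D.memP _) hcl)
      have hpos : 0 < a (X.D.cls p) := by
        have : 0 < lm.w p.1 p.2 := lt_of_le_of_ne (lm.nonneg _ _) (Ne.symm h)
        rw [ha]
        simp only []
        rw [hw]
        linarith
      rw [← hlen p hpL]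
      refine le_trans ?_ (hMa (X.D.cls p))
      rw [le_div_iff₀ hpos, mul_comm]
      exact hta _
    · have hpL : p ∈ X.S'.L := hp _ _ h
      have hcl : X.D'.cls p = X.D'.cls (X.D'.P (X.D'.cls p)) := (X.D'.clsP _).symm
      have hx := X.D'.cls_inj p hpL _ (X.D'.memP _) hcl
      have hw : lp.w (X.D'.P (X.D'.cls p)).1 (X.D'.P (X.D'.cls p)).2 = lp.w p.1 p.2 :=
        XC5_w lp hx
      have hpos : 0 < b (X.D'.cls p) := by
        have : 0 < lp.w p.1 p.2 := lt_of_le_of_ne (lp.nonneg _ _) (Ne.symm h)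
        rw [hb]
        simp only []
        rw [hw]
        linarith
      have hl : (X.w (X.D'.cls p)).H z = len (r (gen Γ p)) := by
        rw [hH]
        obtain ⟨γ, hγ, e | e⟩ := hx
        · rw [e]
          exact (hlen' p hpL).2.2 γ hγ
        · rw [e, (hlen' (sw p) (X.S'.swap p hpL)).2.2 γ hγ]
          exact (hlen' p hpL).2.1
      rw [← hl]
      refine le_trans ?_ (hMb (X.D'.cls p))
      rw [le_div_iff₀ hpos, mul_comm]
      exact htb _
  have htr : |trc (r (gen Γ (X.D.P j)))| ≤ |C j| := (hC j f r hfr hleaf).trans (le_abs_self _)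
  have h2 : 2 < |trc (r (gen Γ (X.D.P j)))| := hA.1.2.1 _ (X.D.memP j)
  rw [hz.1 j]
  refine (XC5_len _ _ htr h2).trans ?_
  exact Finset.single_le_sum (f := fun j => 2 * |C j|)
    (fun i _ => mul_nonneg (by norm_num) (abs_nonneg _)) (Finset.mem_univ j)

end

end AdSBend
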